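import Pool.Agent.Strip051.Box.C2
import Pool.Agent.Strip051.Box.S30
import Pool.Agent.Strip051.LB.Fc.F2

/-! # LINE tight chart ChA03V2_pm_011 -/

namespace Pool.Agent.Strip051.LB.ChA03V2_pm_011

open Pool.Agent.Strip051.Box Pool.Agent.Strip051.Box2

open Pool.Agent.Strip051.LB.Fc Pool.Agent.Strip051.LB.Fc.F2 Pool.Agent.Strip051.LB.Fn Pool.Agent.Strip051.LB.Fn.F2

/-- coordinates of a point of the box -/
def In (b : Bx) (E : Pt) (x1 x2 : ℝ) : Prop :=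
  (S : ℝ) * x1 = ((b.p1 : ℝ) - b.n1) + b.q1 * E.e1 ∧ (S : ℝ) * x2 = ((b.p2 : ℝ) - b.n2) + b.q2 * E.e2

variable {b : Bx} {E : Pt} {x1 x2 : ℝ}

def t0 (b : Bx) : TM := X1 b
noncomputable def v0 (x1 _x2 : ℝ) : ℝ := x1
theorem h0 (h : In b E x1 x2) : Enc S E (t0 b) (v0 x1 x2) := enc_X1 h.1

def t1 (b : Bx) : TM := X2 b
noncomputable def v1 (_x1 x2 : ℝ) : ℝ := x2
theorem h1 (h : In b E x1 x2) : Enc S E (t1 b) (v1 x1 x2) := enc_X2 h.2

def t2 (_b : Bx) : TM := tconst 1859775393 0 1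
noncomputable def v2 (_x1 _x2 : ℝ) : ℝ := Real.sqrt ((3 : ℕ) : ℝ)
theorem h2 (_h : In b E x1 x2) : Enc S E (t2 b) (v2 x1 x2) := enc_sqrtn E (by decide) (by decide)

def t3 (b : Bx) : TM := tscale 1 2 (t2 b)
noncomputable def v3 (x1 x2 : ℝ) : ℝ := ((1 : ℕ) : ℝ) / ((2 : ℕ) : ℝ) * v2 x1 x2
theorem h3 (h : In b E x1 x2) : Enc S E (t3 b) (v3 x1 x2) := enc_scale 1 (by norm_num) (h2 h)

def t4 (b : Bx) : TM := tsq S (t0 b)
noncomputable def v4 (x1 x2 : ℝ) : ℝ := (v0 x1 x2) ^ 2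
theorem h4 (h : In b E x1 x2) : Enc S E (t4 b) (v4 x1 x2) := enc_sq hS (h0 h)

def t5 (_b : Bx) : TM := tconst (Nat.mul 1 S) 0 0
noncomputable def v5 (_x1 _x2 : ℝ) : ℝ := ((1 : ℕ) : ℝ)
theorem h5 (_h : In b E x1 x2) : Enc S E (t5 b) (v5 x1 x2) := enc_nc E 1

def t6 (b : Bx) : TM := tsub (t5 b) (t4 b)
noncomputable def v6 (x1 x2 : ℝ) : ℝ := v5 x1 x2 - v4 x1 x2
theorem h6 (h : In b E x1 x2) : Enc S E (t6 b) (v6 x1 x2) := enc_sub (h5 h) (h4 h)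

def t7 (b : Bx) : TM := tsqrt S (t6 b)
noncomputable def v7 (x1 x2 : ℝ) : ℝ := Real.sqrt (v6 x1 x2)
theorem h7 (h : In b E x1 x2) : Enc S E (t7 b) (v7 x1 x2) := enc_sqrt hS (h6 h)

def t9 (_b : Bx) : TM := tconst (Nat.div (Nat.mul 1 S) 2) 0 1
noncomputable def v9 (_x1 _x2 : ℝ) : ℝ := ((1 : ℕ) : ℝ) / ((2 : ℕ) : ℝ)
theorem h9 (_h : In b E x1 x2) : Enc S E (t9 b) (v9 x1 x2) := enc_rat E 1 (by norm_num)

def t10 (b : Bx) : TM := tmul S (t7 b) (t3 b)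
noncomputable def v10 (x1 x2 : ℝ) : ℝ := v7 x1 x2 * v3 x1 x2
theorem h10 (h : In b E x1 x2) : Enc S E (t10 b) (v10 x1 x2) := enc_mul hS (h7 h) (h3 h)

def t11 (b : Bx) : TM := tneg (t10 b)
noncomputable def v11 (x1 x2 : ℝ) : ℝ := -(v10 x1 x2)
theorem h11 (h : In b E x1 x2) : Enc S E (t11 b) (v11 x1 x2) := enc_neg (h10 h)

def t12 (b : Bx) : TM := tscale 1 2 (t0 b)
noncomputable def v12 (x1 x2 : ℝ) : ℝ := ((1 : ℕ) : ℝ) / ((2 : ℕ) : ℝ) * v0 x1 x2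
theorem h12 (h : In b E x1 x2) : Enc S E (t12 b) (v12 x1 x2) := enc_scale 1 (by norm_num) (h0 h)

def t13 (b : Bx) : TM := tsub (t11 b) (t12 b)
noncomputable def v13 (x1 x2 : ℝ) : ℝ := v11 x1 x2 - v12 x1 x2
theorem h13 (h : In b E x1 x2) : Enc S E (t13 b) (v13 x1 x2) := enc_sub (h11 h) (h12 h)

def t14 (b : Bx) : TM := tmul S (t0 b) (t3 b)
noncomputable def v14 (x1 x2 : ℝ) : ℝ := v0 x1 x2 * v3 x1 x2
theorem h14 (h : In b E x1 x2) : Enc S E (t14 b) (v14 x1 x2) := enc_mul hS (h0 h) (h3 h)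

def t16 (b : Bx) : TM := tscale 1 2 (t7 b)
noncomputable def v16 (x1 x2 : ℝ) : ℝ := ((1 : ℕ) : ℝ) / ((2 : ℕ) : ℝ) * v7 x1 x2
theorem h16 (h : In b E x1 x2) : Enc S E (t16 b) (v16 x1 x2) := enc_scale 1 (by norm_num) (h7 h)

def t17 (b : Bx) : TM := tsub (t16 b) (t14 b)
noncomputable def v17 (x1 x2 : ℝ) : ℝ := v16 x1 x2 - v14 x1 x2
theorem h17 (h : In b E x1 x2) : Enc S E (t17 b) (v17 x1 x2) := enc_sub (h16 h) (h14 h)

def t18 (b : Bx) : TM := tmul S (t13 b) (t2 b)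
noncomputable def v18 (x1 x2 : ℝ) : ℝ := v13 x1 x2 * v2 x1 x2
theorem h18 (h : In b E x1 x2) : Enc S E (t18 b) (v18 x1 x2) := enc_mul hS (h13 h) (h2 h)

def t19 (b : Bx) : TM := tmul S (t17 b) (t2 b)
noncomputable def v19 (x1 x2 : ℝ) : ℝ := v17 x1 x2 * v2 x1 x2
theorem h19 (h : In b E x1 x2) : Enc S E (t19 b) (v19 x1 x2) := enc_mul hS (h17 h) (h2 h)

def t25 (b : Bx) : TM := tsub (t1 b) (t19 b)
noncomputable def v25 (x1 x2 : ℝ) : ℝ := v1 x1 x2 - v19 x1 x2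
theorem h25 (h : In b E x1 x2) : Enc S E (t25 b) (v25 x1 x2) := enc_sub (h1 h) (h19 h)

def t26 (b : Bx) : TM := tsq S (t1 b)
noncomputable def v26 (x1 x2 : ℝ) : ℝ := (v1 x1 x2) ^ 2
theorem h26 (h : In b E x1 x2) : Enc S E (t26 b) (v26 x1 x2) := enc_sq hS (h1 h)

def t27 (_b : Bx) : TM := tconst (Nat.mul 3 S) 0 0
noncomputable def v27 (_x1 _x2 : ℝ) : ℝ := ((3 : ℕ) : ℝ)
theorem h27 (_h : In b E x1 x2) : Enc S E (t27 b) (v27 x1 x2) := enc_nc E 3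

def t28 (b : Bx) : TM := tsub (t27 b) (t26 b)
noncomputable def v28 (x1 x2 : ℝ) : ℝ := v27 x1 x2 - v26 x1 x2
theorem h28 (h : In b E x1 x2) : Enc S E (t28 b) (v28 x1 x2) := enc_sub (h27 h) (h26 h)

def t29 (b : Bx) : TM := tsqrt S (t28 b)
noncomputable def v29 (x1 x2 : ℝ) : ℝ := Real.sqrt (v28 x1 x2)
theorem h29 (h : In b E x1 x2) : Enc S E (t29 b) (v29 x1 x2) := enc_sqrt hS (h28 h)

def t32 (b : Bx) : TM := tsub (t7 b) (t29 b)
noncomputable def v32 (x1 x2 : ℝ) : ℝ := v7 x1 x2 - v29 x1 x2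
theorem h32 (h : In b E x1 x2) : Enc S E (t32 b) (v32 x1 x2) := enc_sub (h7 h) (h29 h)

def t33 (b : Bx) : TM := tadd (t0 b) (t1 b)
noncomputable def v33 (x1 x2 : ℝ) : ℝ := v0 x1 x2 + v1 x1 x2
theorem h33 (h : In b E x1 x2) : Enc S E (t33 b) (v33 x1 x2) := enc_add (h0 h) (h1 h)

def t34 (b : Bx) : TM := tmul S (t2 b) (t0 b)
noncomputable def v34 (x1 x2 : ℝ) : ℝ := v2 x1 x2 * v0 x1 x2
theorem h34 (h : In b E x1 x2) : Enc S E (t34 b) (v34 x1 x2) := enc_mul hS (h2 h) (h0 h)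

def t35 (b : Bx) : TM := tsub (t7 b) (t34 b)
noncomputable def v35 (x1 x2 : ℝ) : ℝ := v7 x1 x2 - v34 x1 x2
theorem h35 (h : In b E x1 x2) : Enc S E (t35 b) (v35 x1 x2) := enc_sub (h7 h) (h34 h)

def t36 (b : Bx) : TM := tadd (t5 b) (t7 b)
noncomputable def v36 (x1 x2 : ℝ) : ℝ := v5 x1 x2 + v7 x1 x2
theorem h36 (h : In b E x1 x2) : Enc S E (t36 b) (v36 x1 x2) := enc_add (h5 h) (h7 h)

def t37 (b : Bx) : TM := tmul S (t35 b) (t36 b)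
noncomputable def v37 (x1 x2 : ℝ) : ℝ := v35 x1 x2 * v36 x1 x2
theorem h37 (h : In b E x1 x2) : Enc S E (t37 b) (v37 x1 x2) := enc_mul hS (h35 h) (h36 h)

def t38 (b : Bx) : TM := tsub (t36 b) (t34 b)
noncomputable def v38 (x1 x2 : ℝ) : ℝ := v36 x1 x2 - v34 x1 x2
theorem h38 (h : In b E x1 x2) : Enc S E (t38 b) (v38 x1 x2) := enc_sub (h36 h) (h34 h)

def t39 (b : Bx) : TM := tinv S (t38 b)
noncomputable def v39 (x1 x2 : ℝ) : ℝ := (v38 x1 x2)⁻¹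
theorem h39 (h : In b E x1 x2) : Enc S E (t39 b) (v39 x1 x2) := enc_inv hS (h38 h)

def t40 (b : Bx) : TM := tmul S (t37 b) (t39 b)
noncomputable def v40 (x1 x2 : ℝ) : ℝ := v37 x1 x2 * v39 x1 x2
theorem h40 (h : In b E x1 x2) : Enc S E (t40 b) (v40 x1 x2) := enc_mul hS (h37 h) (h39 h)

def t41 (_b : Bx) : TM := tconst (Nat.div (Nat.mul 3 S) 2) 0 1
noncomputable def v41 (_x1 _x2 : ℝ) : ℝ := ((3 : ℕ) : ℝ) / ((2 : ℕ) : ℝ)
theorem h41 (_h : In b E x1 x2) : Enc S E (t41 b) (v41 x1 x2) := enc_rat E 3 (by norm_num)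

def t42 (b : Bx) : TM := tadd (t29 b) (t41 b)
noncomputable def v42 (x1 x2 : ℝ) : ℝ := v29 x1 x2 + v41 x1 x2
theorem h42 (h : In b E x1 x2) : Enc S E (t42 b) (v42 x1 x2) := enc_add (h29 h) (h41 h)

def t44 (b : Bx) : TM := tadd (t3 b) (t1 b)
noncomputable def v44 (x1 x2 : ℝ) : ℝ := v3 x1 x2 + v1 x1 x2
theorem h44 (h : In b E x1 x2) : Enc S E (t44 b) (v44 x1 x2) := enc_add (h3 h) (h1 h)

def t45 (b : Bx) : TM := tinv S (t44 b)
noncomputable def v45 (x1 x2 : ℝ) : ℝ := (v44 x1 x2)⁻¹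
theorem h45 (h : In b E x1 x2) : Enc S E (t45 b) (v45 x1 x2) := enc_inv hS (h44 h)

def t48 (b : Bx) : TM := tsq S (t32 b)
noncomputable def v48 (x1 x2 : ℝ) : ℝ := (v32 x1 x2) ^ 2
theorem h48 (h : In b E x1 x2) : Enc S E (t48 b) (v48 x1 x2) := enc_sq hS (h32 h)

def t49 (b : Bx) : TM := tsq S (t33 b)
noncomputable def v49 (x1 x2 : ℝ) : ℝ := (v33 x1 x2) ^ 2
theorem h49 (h : In b E x1 x2) : Enc S E (t49 b) (v49 x1 x2) := enc_sq hS (h33 h)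

def t50 (b : Bx) : TM := tadd (t48 b) (t49 b)
noncomputable def v50 (x1 x2 : ℝ) : ℝ := v48 x1 x2 + v49 x1 x2
theorem h50 (h : In b E x1 x2) : Enc S E (t50 b) (v50 x1 x2) := enc_add (h48 h) (h49 h)

def t54 (b : Bx) : TM := tadd (t1 b) (t19 b)
noncomputable def v54 (x1 x2 : ℝ) : ℝ := v1 x1 x2 + v19 x1 x2
theorem h54 (h : In b E x1 x2) : Enc S E (t54 b) (v54 x1 x2) := enc_add (h1 h) (h19 h)

def t57 (b : Bx) : TM := tsub (t29 b) (t18 b)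
noncomputable def v57 (x1 x2 : ℝ) : ℝ := v29 x1 x2 - v18 x1 x2
theorem h57 (h : In b E x1 x2) : Enc S E (t57 b) (v57 x1 x2) := enc_sub (h29 h) (h18 h)

def t58 (b : Bx) : TM := tinv S (t57 b)
noncomputable def v58 (x1 x2 : ℝ) : ℝ := (v57 x1 x2)⁻¹
theorem h58 (h : In b E x1 x2) : Enc S E (t58 b) (v58 x1 x2) := enc_inv hS (h57 h)

def t59 (b : Bx) : TM := tmul S (t54 b) (t58 b)
noncomputable def v59 (x1 x2 : ℝ) : ℝ := v54 x1 x2 * v58 x1 x2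
theorem h59 (h : In b E x1 x2) : Enc S E (t59 b) (v59 x1 x2) := enc_mul hS (h54 h) (h58 h)

def t61 (b : Bx) : TM := tadd (t7 b) (t18 b)
noncomputable def v61 (x1 x2 : ℝ) : ℝ := v7 x1 x2 + v18 x1 x2
theorem h61 (h : In b E x1 x2) : Enc S E (t61 b) (v61 x1 x2) := enc_add (h7 h) (h18 h)

def t63 (b : Bx) : TM := tadd (t32 b) (t61 b)
noncomputable def v63 (x1 x2 : ℝ) : ℝ := v32 x1 x2 + v61 x1 x2
theorem h63 (h : In b E x1 x2) : Enc S E (t63 b) (v63 x1 x2) := enc_add (h32 h) (h61 h)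

def t64 (b : Bx) : TM := tmul S (t59 b) (t63 b)
noncomputable def v64 (x1 x2 : ℝ) : ℝ := v59 x1 x2 * v63 x1 x2
theorem h64 (h : In b E x1 x2) : Enc S E (t64 b) (v64 x1 x2) := enc_mul hS (h59 h) (h63 h)

def t65 (b : Bx) : TM := tadd (t0 b) (t19 b)
noncomputable def v65 (x1 x2 : ℝ) : ℝ := v0 x1 x2 + v19 x1 x2
theorem h65 (h : In b E x1 x2) : Enc S E (t65 b) (v65 x1 x2) := enc_add (h0 h) (h19 h)

def t67 (b : Bx) : TM := tadd (t33 b) (t65 b)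
noncomputable def v67 (x1 x2 : ℝ) : ℝ := v33 x1 x2 + v65 x1 x2
theorem h67 (h : In b E x1 x2) : Enc S E (t67 b) (v67 x1 x2) := enc_add (h33 h) (h65 h)

def t69 (b : Bx) : TM := tadd (t64 b) (t67 b)
noncomputable def v69 (x1 x2 : ℝ) : ℝ := v64 x1 x2 + v67 x1 x2
theorem h69 (h : In b E x1 x2) : Enc S E (t69 b) (v69 x1 x2) := enc_add (h64 h) (h67 h)

def t71 (b : Bx) : TM := tsub (t29 b) (t7 b)
noncomputable def v71 (x1 x2 : ℝ) : ℝ := v29 x1 x2 - v7 x1 x2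
theorem h71 (h : In b E x1 x2) : Enc S E (t71 b) (v71 x1 x2) := enc_sub (h29 h) (h7 h)

def t72 (b : Bx) : TM := tsub (t5 b) (t49 b)
noncomputable def v72 (x1 x2 : ℝ) : ℝ := v5 x1 x2 - v49 x1 x2
theorem h72 (h : In b E x1 x2) : Enc S E (t72 b) (v72 x1 x2) := enc_sub (h5 h) (h49 h)

def t73 (b : Bx) : TM := tsqrt S (t72 b)
noncomputable def v73 (x1 x2 : ℝ) : ℝ := Real.sqrt (v72 x1 x2)
theorem h73 (h : In b E x1 x2) : Enc S E (t73 b) (v73 x1 x2) := enc_sqrt hS (h72 h)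

def t74 (b : Bx) : TM := tadd (t14 b) (t16 b)
noncomputable def v74 (x1 x2 : ℝ) : ℝ := v14 x1 x2 + v16 x1 x2
theorem h74 (h : In b E x1 x2) : Enc S E (t74 b) (v74 x1 x2) := enc_add (h14 h) (h16 h)

def t77 (b : Bx) : TM := tmul S (t2 b) (t33 b)
noncomputable def v77 (x1 x2 : ℝ) : ℝ := v2 x1 x2 * v33 x1 x2
theorem h77 (h : In b E x1 x2) : Enc S E (t77 b) (v77 x1 x2) := enc_mul hS (h2 h) (h33 h)

def t78 (b : Bx) : TM := tsub (t77 b) (t73 b)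
noncomputable def v78 (x1 x2 : ℝ) : ℝ := v77 x1 x2 - v73 x1 x2
theorem h78 (h : In b E x1 x2) : Enc S E (t78 b) (v78 x1 x2) := enc_sub (h77 h) (h73 h)

def t80 (b : Bx) : TM := tadd (t5 b) (t77 b)
noncomputable def v80 (x1 x2 : ℝ) : ℝ := v5 x1 x2 + v77 x1 x2
theorem h80 (h : In b E x1 x2) : Enc S E (t80 b) (v80 x1 x2) := enc_add (h5 h) (h77 h)

def t81 (b : Bx) : TM := tsub (t80 b) (t73 b)
noncomputable def v81 (x1 x2 : ℝ) : ℝ := v80 x1 x2 - v73 x1 x2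
theorem h81 (h : In b E x1 x2) : Enc S E (t81 b) (v81 x1 x2) := enc_sub (h80 h) (h73 h)

def t82 (b : Bx) : TM := tnat 2 (t81 b)
noncomputable def v82 (x1 x2 : ℝ) : ℝ := ((2 : ℕ) : ℝ) * v81 x1 x2
theorem h82 (h : In b E x1 x2) : Enc S E (t82 b) (v82 x1 x2) := enc_nat 2 (h81 h)

def t83 (b : Bx) : TM := tinv S (t82 b)
noncomputable def v83 (x1 x2 : ℝ) : ℝ := (v82 x1 x2)⁻¹
theorem h83 (h : In b E x1 x2) : Enc S E (t83 b) (v83 x1 x2) := enc_inv hS (h82 h)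

def t87 (b : Bx) : TM := tadd (t73 b) (t74 b)
noncomputable def v87 (x1 x2 : ℝ) : ℝ := v73 x1 x2 + v74 x1 x2
theorem h87 (h : In b E x1 x2) : Enc S E (t87 b) (v87 x1 x2) := enc_add (h73 h) (h74 h)

def t88 (b : Bx) : TM := tinv S (t87 b)
noncomputable def v88 (x1 x2 : ℝ) : ℝ := (v87 x1 x2)⁻¹
theorem h88 (h : In b E x1 x2) : Enc S E (t88 b) (v88 x1 x2) := enc_inv hS (h87 h)

def t89 (b : Bx) : TM := tmul S (t67 b) (t88 b)
noncomputable def v89 (x1 x2 : ℝ) : ℝ := v67 x1 x2 * v88 x1 x2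
theorem h89 (h : In b E x1 x2) : Enc S E (t89 b) (v89 x1 x2) := enc_mul hS (h67 h) (h88 h)

def t91 (b : Bx) : TM := tnat 2 (t74 b)
noncomputable def v91 (x1 x2 : ℝ) : ℝ := ((2 : ℕ) : ℝ) * v74 x1 x2
theorem h91 (h : In b E x1 x2) : Enc S E (t91 b) (v91 x1 x2) := enc_nat 2 (h74 h)

def t92 (b : Bx) : TM := tnat 2 (t89 b)
noncomputable def v92 (x1 x2 : ℝ) : ℝ := ((2 : ℕ) : ℝ) * v89 x1 x2
theorem h92 (h : In b E x1 x2) : Enc S E (t92 b) (v92 x1 x2) := enc_nat 2 (h89 h)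

def t94 (b : Bx) : TM := tadd (t5 b) (t91 b)
noncomputable def v94 (x1 x2 : ℝ) : ℝ := v5 x1 x2 + v91 x1 x2
theorem h94 (h : In b E x1 x2) : Enc S E (t94 b) (v94 x1 x2) := enc_add (h5 h) (h91 h)

def t95 (b : Bx) : TM := tmul S (t2 b) (t65 b)
noncomputable def v95 (x1 x2 : ℝ) : ℝ := v2 x1 x2 * v65 x1 x2
theorem h95 (h : In b E x1 x2) : Enc S E (t95 b) (v95 x1 x2) := enc_mul hS (h2 h) (h65 h)

def t96 (b : Bx) : TM := tsub (t95 b) (t74 b)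
noncomputable def v96 (x1 x2 : ℝ) : ℝ := v95 x1 x2 - v74 x1 x2
theorem h96 (h : In b E x1 x2) : Enc S E (t96 b) (v96 x1 x2) := enc_sub (h95 h) (h74 h)

def t97 (b : Bx) : TM := tadd (t2 b) (t89 b)
noncomputable def v97 (x1 x2 : ℝ) : ℝ := v2 x1 x2 + v89 x1 x2
theorem h97 (h : In b E x1 x2) : Enc S E (t97 b) (v97 x1 x2) := enc_add (h2 h) (h89 h)

def t98 (b : Bx) : TM := tmul S (t94 b) (t96 b)
noncomputable def v98 (x1 x2 : ℝ) : ℝ := v94 x1 x2 * v96 x1 x2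
theorem h98 (h : In b E x1 x2) : Enc S E (t98 b) (v98 x1 x2) := enc_mul hS (h94 h) (h96 h)

def t99 (b : Bx) : TM := tmul S (t92 b) (t78 b)
noncomputable def v99 (x1 x2 : ℝ) : ℝ := v92 x1 x2 * v78 x1 x2
theorem h99 (h : In b E x1 x2) : Enc S E (t99 b) (v99 x1 x2) := enc_mul hS (h92 h) (h78 h)

def t101 (b : Bx) : TM := tmul S (t94 b) (t97 b)
noncomputable def v101 (x1 x2 : ℝ) : ℝ := v94 x1 x2 * v97 x1 x2
theorem h101 (h : In b E x1 x2) : Enc S E (t101 b) (v101 x1 x2) := enc_mul hS (h94 h) (h97 h)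

def t102 (b : Bx) : TM := tsub (t101 b) (t99 b)
noncomputable def v102 (x1 x2 : ℝ) : ℝ := v101 x1 x2 - v99 x1 x2
theorem h102 (h : In b E x1 x2) : Enc S E (t102 b) (v102 x1 x2) := enc_sub (h101 h) (h99 h)

def t103 (b : Bx) : TM := tadd (t5 b) (t95 b)
noncomputable def v103 (x1 x2 : ℝ) : ℝ := v5 x1 x2 + v95 x1 x2
theorem h103 (h : In b E x1 x2) : Enc S E (t103 b) (v103 x1 x2) := enc_add (h5 h) (h95 h)

def t104 (b : Bx) : TM := tsub (t103 b) (t74 b)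
noncomputable def v104 (x1 x2 : ℝ) : ℝ := v103 x1 x2 - v74 x1 x2
theorem h104 (h : In b E x1 x2) : Enc S E (t104 b) (v104 x1 x2) := enc_sub (h103 h) (h74 h)

def t105 (b : Bx) : TM := tnat 2 (t104 b)
noncomputable def v105 (x1 x2 : ℝ) : ℝ := ((2 : ℕ) : ℝ) * v104 x1 x2
theorem h105 (h : In b E x1 x2) : Enc S E (t105 b) (v105 x1 x2) := enc_nat 2 (h104 h)

def t106 (b : Bx) : TM := tnat 2 (t97 b)
noncomputable def v106 (x1 x2 : ℝ) : ℝ := ((2 : ℕ) : ℝ) * v97 x1 x2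
theorem h106 (h : In b E x1 x2) : Enc S E (t106 b) (v106 x1 x2) := enc_nat 2 (h97 h)

def t107 (b : Bx) : TM := tinv S (t105 b)
noncomputable def v107 (x1 x2 : ℝ) : ℝ := (v105 x1 x2)⁻¹
theorem h107 (h : In b E x1 x2) : Enc S E (t107 b) (v107 x1 x2) := enc_inv hS (h105 h)

def t108 (b : Bx) : TM := tmul S (t83 b) (t107 b)
noncomputable def v108 (x1 x2 : ℝ) : ℝ := v83 x1 x2 * v107 x1 x2
theorem h108 (h : In b E x1 x2) : Enc S E (t108 b) (v108 x1 x2) := enc_mul hS (h83 h) (h107 h)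

def t109 (b : Bx) : TM := tmul S (t106 b) (t108 b)
noncomputable def v109 (x1 x2 : ℝ) : ℝ := v106 x1 x2 * v108 x1 x2
theorem h109 (h : In b E x1 x2) : Enc S E (t109 b) (v109 x1 x2) := enc_mul hS (h106 h) (h108 h)

def t112 (b : Bx) : TM := tmul S (t102 b) (t83 b)
noncomputable def v112 (x1 x2 : ℝ) : ℝ := v102 x1 x2 * v83 x1 x2
theorem h112 (h : In b E x1 x2) : Enc S E (t112 b) (v112 x1 x2) := enc_mul hS (h102 h) (h83 h)

def t113 (b : Bx) : TM := tmul S (t98 b) (t109 b)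
noncomputable def v113 (x1 x2 : ℝ) : ℝ := v98 x1 x2 * v109 x1 x2
theorem h113 (h : In b E x1 x2) : Enc S E (t113 b) (v113 x1 x2) := enc_mul hS (h98 h) (h109 h)

def t115 (b : Bx) : TM := tsub (t112 b) (t113 b)
noncomputable def v115 (x1 x2 : ℝ) : ℝ := v112 x1 x2 - v113 x1 x2
theorem h115 (h : In b E x1 x2) : Enc S E (t115 b) (v115 x1 x2) := enc_sub (h112 h) (h113 h)

def t116 (b : Bx) : TM := kxq1_t (t71 b) (t33 b)
noncomputable def v116 (x1 x2 : ℝ) : ℝ := kxq1_v (v71 x1 x2) (v33 x1 x2)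
theorem h116 (h : In b E x1 x2) : Enc S E (t116 b) (v116 x1 x2) := kxq1_enc (h71 h) (h33 h)

def t117 (b : Bx) : TM := tadd (t71 b) (t73 b)
noncomputable def v117 (x1 x2 : ℝ) : ℝ := v71 x1 x2 + v73 x1 x2
theorem h117 (h : In b E x1 x2) : Enc S E (t117 b) (v117 x1 x2) := enc_add (h71 h) (h73 h)

def t118 (b : Bx) : TM := f2m_t (t33 b)
noncomputable def v118 (x1 x2 : ℝ) : ℝ := f2m_v (v33 x1 x2)
theorem h118 (h : In b E x1 x2) : Enc S E (t118 b) (v118 x1 x2) := f2m_enc (h33 h)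

def t119 (b : Bx) : TM := tsub (t118 b) (t71 b)
noncomputable def v119 (x1 x2 : ℝ) : ℝ := v118 x1 x2 - v71 x1 x2
theorem h119 (h : In b E x1 x2) : Enc S E (t119 b) (v119 x1 x2) := enc_sub (h118 h) (h71 h)

def t125 (b : Bx) : TM := tmul S (t69 b) (t116 b)
noncomputable def v125 (x1 x2 : ℝ) : ℝ := v69 x1 x2 * v116 x1 x2
theorem h125 (h : In b E x1 x2) : Enc S E (t125 b) (v125 x1 x2) := enc_mul hS (h69 h) (h116 h)

def t126 (b : Bx) : TM := tinv S (t117 b)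
noncomputable def v126 (x1 x2 : ℝ) : ℝ := (v117 x1 x2)⁻¹
theorem h126 (h : In b E x1 x2) : Enc S E (t126 b) (v126 x1 x2) := enc_inv hS (h117 h)

def t127 (b : Bx) : TM := tmul S (t125 b) (t126 b)
noncomputable def v127 (x1 x2 : ℝ) : ℝ := v125 x1 x2 * v126 x1 x2
theorem h127 (h : In b E x1 x2) : Enc S E (t127 b) (v127 x1 x2) := enc_mul hS (h125 h) (h126 h)

def t128 (b : Bx) : TM := tadd (t115 b) (t127 b)
noncomputable def v128 (x1 x2 : ℝ) : ℝ := v115 x1 x2 + v127 x1 x2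
theorem h128 (h : In b E x1 x2) : Enc S E (t128 b) (v128 x1 x2) := enc_add (h115 h) (h127 h)

def t129 (b : Bx) : TM := tneg (t128 b)
noncomputable def v129 (x1 x2 : ℝ) : ℝ := -(v128 x1 x2)
theorem h129 (h : In b E x1 x2) : Enc S E (t129 b) (v129 x1 x2) := enc_neg (h128 h)

def t130 (b : Bx) : TM := tmul S (t7 b) (t1 b)
noncomputable def v130 (x1 x2 : ℝ) : ℝ := v7 x1 x2 * v1 x1 x2
theorem h130 (h : In b E x1 x2) : Enc S E (t130 b) (v130 x1 x2) := enc_mul hS (h7 h) (h1 h)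

def t131 (b : Bx) : TM := tmul S (t29 b) (t0 b)
noncomputable def v131 (x1 x2 : ℝ) : ℝ := v29 x1 x2 * v0 x1 x2
theorem h131 (h : In b E x1 x2) : Enc S E (t131 b) (v131 x1 x2) := enc_mul hS (h29 h) (h0 h)

def t133 (b : Bx) : TM := tadd (t130 b) (t131 b)
noncomputable def v133 (x1 x2 : ℝ) : ℝ := v130 x1 x2 + v131 x1 x2
theorem h133 (h : In b E x1 x2) : Enc S E (t133 b) (v133 x1 x2) := enc_add (h130 h) (h131 h)

def t134 (b : Bx) : TM := tinv S (t2 b)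
noncomputable def v134 (x1 x2 : ℝ) : ℝ := (v2 x1 x2)⁻¹
theorem h134 (h : In b E x1 x2) : Enc S E (t134 b) (v134 x1 x2) := enc_inv hS (h2 h)

def t135 (b : Bx) : TM := tmul S (t133 b) (t134 b)
noncomputable def v135 (x1 x2 : ℝ) : ℝ := v133 x1 x2 * v134 x1 x2
theorem h135 (h : In b E x1 x2) : Enc S E (t135 b) (v135 x1 x2) := enc_mul hS (h133 h) (h134 h)

def t136 (b : Bx) : TM := tsub (t135 b) (t9 b)
noncomputable def v136 (x1 x2 : ℝ) : ℝ := v135 x1 x2 - v9 x1 x2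
theorem h136 (h : In b E x1 x2) : Enc S E (t136 b) (v136 x1 x2) := enc_sub (h135 h) (h9 h)

def t140 (b : Bx) : TM := tmul S (t59 b) (t0 b)
noncomputable def v140 (x1 x2 : ℝ) : ℝ := v59 x1 x2 * v0 x1 x2
theorem h140 (h : In b E x1 x2) : Enc S E (t140 b) (v140 x1 x2) := enc_mul hS (h59 h) (h0 h)

def t143 (b : Bx) : TM := tsub (t7 b) (t140 b)
noncomputable def v143 (x1 x2 : ℝ) : ℝ := v7 x1 x2 - v140 x1 x2
theorem h143 (h : In b E x1 x2) : Enc S E (t143 b) (v143 x1 x2) := enc_sub (h7 h) (h140 h)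

def t145 (b : Bx) : TM := tmul S (t143 b) (t134 b)
noncomputable def v145 (x1 x2 : ℝ) : ℝ := v143 x1 x2 * v134 x1 x2
theorem h145 (h : In b E x1 x2) : Enc S E (t145 b) (v145 x1 x2) := enc_mul hS (h143 h) (h134 h)

def t147 (b : Bx) : TM := tsub (t1 b) (t3 b)
noncomputable def v147 (x1 x2 : ℝ) : ℝ := v1 x1 x2 - v3 x1 x2
theorem h147 (h : In b E x1 x2) : Enc S E (t147 b) (v147 x1 x2) := enc_sub (h1 h) (h3 h)

def t148 (b : Bx) : TM := tsub (t33 b) (t3 b)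
noncomputable def v148 (x1 x2 : ℝ) : ℝ := v33 x1 x2 - v3 x1 x2
theorem h148 (h : In b E x1 x2) : Enc S E (t148 b) (v148 x1 x2) := enc_sub (h33 h) (h3 h)

def t149 (b : Bx) : TM := tsub (t41 b) (t18 b)
noncomputable def v149 (x1 x2 : ℝ) : ℝ := v41 x1 x2 - v18 x1 x2
theorem h149 (h : In b E x1 x2) : Enc S E (t149 b) (v149 x1 x2) := enc_sub (h41 h) (h18 h)

def t150 (b : Bx) : TM := tmul S (t19 b) (t149 b)
noncomputable def v150 (x1 x2 : ℝ) : ℝ := v19 x1 x2 * v149 x1 x2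
theorem h150 (h : In b E x1 x2) : Enc S E (t150 b) (v150 x1 x2) := enc_mul hS (h19 h) (h149 h)

def t151 (b : Bx) : TM := tmul S (t19 b) (t59 b)
noncomputable def v151 (x1 x2 : ℝ) : ℝ := v19 x1 x2 * v59 x1 x2
theorem h151 (h : In b E x1 x2) : Enc S E (t151 b) (v151 x1 x2) := enc_mul hS (h19 h) (h59 h)

def t153 (b : Bx) : TM := tsub (t42 b) (t151 b)
noncomputable def v153 (x1 x2 : ℝ) : ℝ := v42 x1 x2 - v151 x1 x2
theorem h153 (h : In b E x1 x2) : Enc S E (t153 b) (v153 x1 x2) := enc_sub (h42 h) (h151 h)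

def t154 (b : Bx) : TM := tadd (t3 b) (t19 b)
noncomputable def v154 (x1 x2 : ℝ) : ℝ := v3 x1 x2 + v19 x1 x2
theorem h154 (h : In b E x1 x2) : Enc S E (t154 b) (v154 x1 x2) := enc_add (h3 h) (h19 h)

def t155 (b : Bx) : TM := tinv S (t154 b)
noncomputable def v155 (x1 x2 : ℝ) : ℝ := (v154 x1 x2)⁻¹
theorem h155 (h : In b E x1 x2) : Enc S E (t155 b) (v155 x1 x2) := enc_inv hS (h154 h)

def t156 (b : Bx) : TM := tmul S (t45 b) (t155 b)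
noncomputable def v156 (x1 x2 : ℝ) : ℝ := v45 x1 x2 * v155 x1 x2
theorem h156 (h : In b E x1 x2) : Enc S E (t156 b) (v156 x1 x2) := enc_mul hS (h45 h) (h155 h)

def t159 (b : Bx) : TM := tmul S (t153 b) (t45 b)
noncomputable def v159 (x1 x2 : ℝ) : ℝ := v153 x1 x2 * v45 x1 x2
theorem h159 (h : In b E x1 x2) : Enc S E (t159 b) (v159 x1 x2) := enc_mul hS (h153 h) (h45 h)

def t160 (b : Bx) : TM := tmul S (t150 b) (t156 b)
noncomputable def v160 (x1 x2 : ℝ) : ℝ := v150 x1 x2 * v156 x1 x2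
theorem h160 (h : In b E x1 x2) : Enc S E (t160 b) (v160 x1 x2) := enc_mul hS (h150 h) (h156 h)

def t164 (b : Bx) : TM := tsub (t160 b) (t159 b)
noncomputable def v164 (x1 x2 : ℝ) : ℝ := v160 x1 x2 - v159 x1 x2
theorem h164 (h : In b E x1 x2) : Enc S E (t164 b) (v164 x1 x2) := enc_sub (h160 h) (h159 h)

def t165 (b : Bx) : TM := tsub (t129 b) (t164 b)
noncomputable def v165 (x1 x2 : ℝ) : ℝ := v129 x1 x2 - v164 x1 x2
theorem h165 (h : In b E x1 x2) : Enc S E (t165 b) (v165 x1 x2) := enc_sub (h129 h) (h164 h)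

def t167 (b : Bx) : TM := tmul S (t0 b) (t164 b)
noncomputable def v167 (x1 x2 : ℝ) : ℝ := v0 x1 x2 * v164 x1 x2
theorem h167 (h : In b E x1 x2) : Enc S E (t167 b) (v167 x1 x2) := enc_mul hS (h0 h) (h164 h)

def t168 (b : Bx) : TM := tsub (t167 b) (t40 b)
noncomputable def v168 (x1 x2 : ℝ) : ℝ := v167 x1 x2 - v40 x1 x2
theorem h168 (h : In b E x1 x2) : Enc S E (t168 b) (v168 x1 x2) := enc_sub (h167 h) (h40 h)

def t171 (b : Bx) : TM := tmul S (t0 b) (t165 b)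
noncomputable def v171 (x1 x2 : ℝ) : ℝ := v0 x1 x2 * v165 x1 x2
theorem h171 (h : In b E x1 x2) : Enc S E (t171 b) (v171 x1 x2) := enc_mul hS (h0 h) (h165 h)

def t172 (b : Bx) : TM := tadd (t168 b) (t171 b)
noncomputable def v172 (x1 x2 : ℝ) : ℝ := v168 x1 x2 + v171 x1 x2
theorem h172 (h : In b E x1 x2) : Enc S E (t172 b) (v172 x1 x2) := enc_add (h168 h) (h171 h)

def t175 (b : Bx) : TM := tsub (t3 b) (t33 b)
noncomputable def v175 (x1 x2 : ℝ) : ℝ := v3 x1 x2 - v33 x1 x2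
theorem h175 (h : In b E x1 x2) : Enc S E (t175 b) (v175 x1 x2) := enc_sub (h3 h) (h33 h)

def t176 (b : Bx) : TM := qn_t (t175 b) (t0 b) (t145 b) (t172 b) (t165 b)
noncomputable def v176 (x1 x2 : ℝ) : ℝ := qn_v (v175 x1 x2) (v0 x1 x2) (v145 x1 x2) (v172 x1 x2) (v165 x1 x2)
theorem h176 (h : In b E x1 x2) : Enc S E (t176 b) (v176 x1 x2) := qn_enc (h175 h) (h0 h) (h145 h) (h172 h) (h165 h)

def t177 (b : Bx) : TM := tscale 1 4 (t2 b)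
noncomputable def v177 (x1 x2 : ℝ) : ℝ := ((1 : ℕ) : ℝ) / ((4 : ℕ) : ℝ) * v2 x1 x2
theorem h177 (h : In b E x1 x2) : Enc S E (t177 b) (v177 x1 x2) := enc_scale 1 (by norm_num) (h2 h)

def t179 (b : Bx) : TM := tsub (t0 b) (t177 b)
noncomputable def v179 (x1 x2 : ℝ) : ℝ := v0 x1 x2 - v177 x1 x2
theorem h179 (h : In b E x1 x2) : Enc S E (t179 b) (v179 x1 x2) := enc_sub (h0 h) (h177 h)

def t181 (b : Bx) : TM := tsub (t177 b) (t1 b)
noncomputable def v181 (x1 x2 : ℝ) : ℝ := v177 x1 x2 - v1 x1 x2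
theorem h181 (h : In b E x1 x2) : Enc S E (t181 b) (v181 x1 x2) := enc_sub (h177 h) (h1 h)

def t183 (b : Bx) : TM := tsub (t177 b) (t33 b)
noncomputable def v183 (x1 x2 : ℝ) : ℝ := v177 x1 x2 - v33 x1 x2
theorem h183 (h : In b E x1 x2) : Enc S E (t183 b) (v183 x1 x2) := enc_sub (h177 h) (h33 h)

def t184 (_b : Bx) : TM := tconst (Nat.div (Nat.mul 1 S) 16) 0 1
noncomputable def v184 (_x1 _x2 : ℝ) : ℝ := ((1 : ℕ) : ℝ) / ((16 : ℕ) : ℝ)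
theorem h184 (_h : In b E x1 x2) : Enc S E (t184 b) (v184 x1 x2) := enc_rat E 1 (by norm_num)

def t185 (b : Bx) : TM := tsub (t25 b) (t184 b)
noncomputable def v185 (x1 x2 : ℝ) : ℝ := v25 x1 x2 - v184 x1 x2
theorem h185 (h : In b E x1 x2) : Enc S E (t185 b) (v185 x1 x2) := enc_sub (h25 h) (h184 h)

def t186 (b : Bx) : TM := tsub (t19 b) (t1 b)
noncomputable def v186 (x1 x2 : ℝ) : ℝ := v19 x1 x2 - v1 x1 x2
theorem h186 (h : In b E x1 x2) : Enc S E (t186 b) (v186 x1 x2) := enc_sub (h19 h) (h1 h)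

def t187 (b : Bx) : TM := tsub (t186 b) (t184 b)
noncomputable def v187 (x1 x2 : ℝ) : ℝ := v186 x1 x2 - v184 x1 x2
theorem h187 (h : In b E x1 x2) : Enc S E (t187 b) (v187 x1 x2) := enc_sub (h186 h) (h184 h)

def t188 (b : Bx) : TM := tsub (t33 b) (t2 b)
noncomputable def v188 (x1 x2 : ℝ) : ℝ := v33 x1 x2 - v2 x1 x2
theorem h188 (h : In b E x1 x2) : Enc S E (t188 b) (v188 x1 x2) := enc_sub (h33 h) (h2 h)

def t189 (b : Bx) : TM := tsub (t5 b) (t50 b)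
noncomputable def v189 (x1 x2 : ℝ) : ℝ := v5 x1 x2 - v50 x1 x2
theorem h189 (h : In b E x1 x2) : Enc S E (t189 b) (v189 x1 x2) := enc_sub (h5 h) (h50 h)

def t190 (b : Bx) : TM := tadd (t136 b) (t9 b)
noncomputable def v190 (x1 x2 : ℝ) : ℝ := v136 x1 x2 + v9 x1 x2
theorem h190 (h : In b E x1 x2) : Enc S E (t190 b) (v190 x1 x2) := enc_add (h136 h) (h9 h)

def t191 (b : Bx) : TM := tneg (t190 b)
noncomputable def v191 (x1 x2 : ℝ) : ℝ := -(v190 x1 x2)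
theorem h191 (h : In b E x1 x2) : Enc S E (t191 b) (v191 x1 x2) := enc_neg (h190 h)

def g0 (b : Bx) : Bool := and (pos (t69 b)) (and (pos (t28 b)) (and (pos (t57 b)) (and (pos (t72 b)) (and (pos (t87 b)) (and (pos (t82 b)) (and (pos (t105 b)) (and (pos (t117 b)) (and (pos (t119 b)) (and (pos (t44 b)) (and (pos (t154 b)) (and (pos (t38 b)) (or (pos (t186 b)) (pos (t176 b))))))))))))))

def l0 (b : Bx) : Nat := cond (g0 b) 0 (pickb 1 (t176 b) b)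

def P0 (x1 x2 : ℝ) : Prop := 0 < v69 x1 x2 ∧ 0 < v28 x1 x2 ∧ 0 < v57 x1 x2 ∧ 0 < v72 x1 x2 ∧ 0 < v87 x1 x2 ∧ 0 < v82 x1 x2 ∧ 0 < v105 x1 x2 ∧ 0 < v117 x1 x2 ∧ 0 < v119 x1 x2 ∧ 0 < v44 x1 x2 ∧ 0 < v154 x1 x2 ∧ 0 < v38 x1 x2 ∧ (0 < v186 x1 x2 ∨ 0 < v176 x1 x2)

theorem l0_sound (h : In b E x1 x2) (e : l0 b = 0) : P0 x1 x2 := by
  have e1 : g0 b = true := by
    rcases e2 : g0 b with _ | _
    · unfold l0 at e; rw [e2, cond_false] at e; exact absurd e (pickb_ne _ _ _)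
    · rfl
  exact ⟨pos_sound hS (h69 h) (Bool.and_eq_true_iff.mp e1).1, ⟨pos_sound hS (h28 h) (Bool.and_eq_true_iff.mp (Bool.and_eq_true_iff.mp e1).2).1, ⟨pos_sound hS (h57 h) (Bool.and_eq_true_iff.mp (Bool.and_eq_true_iff.mp (Bool.and_eq_true_iff.mp e1).2).2).1, ⟨pos_sound hS (h72 h) (Bool.and_eq_true_iff.mp (Bool.and_eq_true_iff.mp (Bool.and_eq_true_iff.mp (Bool.and_eq_true_iff.mp e1).2).2).2).1, ⟨pos_sound hS (h87 h) (Bool.and_eq_true_iff.mp (Bool.and_eq_true_iff.mp (Bool.and_eq_true_iff.mp (Bool.and_eq_true_iff.mp (Bool.and_eq_true_iff.mp e1).2).2).2).2).1, ⟨pos_sound hS (h82 h) (Bool.and_eq_true_iff.mp (Bool.and_eq_true_iff.mp (Bool.and_eq_true_iff.mp (Bool.and_eq_true_iff.mp (Bool.and_eq_true_iff.mp (Bool.and_eq_true_iff.mp e1).2).2).2).2).2).1, ⟨pos_sound hS (h105 h) (Bool.and_eq_true_iff.mp (Bool.and_eq_true_iff.mp (Bool.and_eq_true_iff.mp (Bool.and_eq_true_iff.mp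 (Bool.and_eq_true_iff.mp (Bool.and_eq_true_iff.mp (Bool.and_eq_true_iff.mp e1).2).2).2).2).2).2).1, ⟨pos_sound hS (h117 h) (Bool.and_eq_true_iff.mp (Bool.and_eq_true_iff.mp (Bool.and_eq_true_iff.mp (Bool.and_eq_true_iff.mp (Bool.and_eq_true_iff.mp (Bool.and_eq_true_iff.mp (Bool.and_eq_true_iff.mp (Bool.and_eq_true_iff.mp e1).2).2).2).2).2).2).2).1, ⟨pos_sound hS (h119 h) (Bool.and_eq_true_iff.mp (Bool.and_eq_true_iff.mp (Bool.and_eq_true_iff.mp (Bool.and_eq_true_iff.mp (Bool.and_eq_true_iff.mp (Bool.and_eq_true_iff.mp (Bool.and_eq_true_iff.mp (Bool.and_eq_true_iff.mp (Bool.and_eq_true_iff.mp e1).2).2).2).2).2).2).2).2).1, ⟨pos_sound hS (h44 h) (Bool.and_eq_true_iff.mp (Bool.and_eq_true_iff.mp (Bool.and_eq_true_iff.mp (Bool.and_eq_true_iff.mp (Bool.and_eq_true_iff.mp (Bool.and_eq_true_iff.mp (Bool.and_eq_true_iff.mp (Bool.and_eq_true_iff.mp (Bool.and_eq_true_iff.mp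 (Bool.and_eq_true_iff.mp e1).2).2).2).2).2).2).2).2).2).1, ⟨pos_sound hS (h154 h) (Bool.and_eq_true_iff.mp (Bool.and_eq_true_iff.mp (Bool.and_eq_true_iff.mp (Bool.and_eq_true_iff.mp (Bool.and_eq_true_iff.mp (Bool.and_eq_true_iff.mp (Bool.and_eq_true_iff.mp (Bool.and_eq_true_iff.mp (Bool.and_eq_true_iff.mp (Bool.and_eq_true_iff.mp (Bool.and_eq_true_iff.mp e1).2).2).2).2).2).2).2).2).2).2).1, ⟨pos_sound hS (h38 h) (Bool.and_eq_true_iff.mp (Bool.and_eq_true_iff.mp (Bool.and_eq_true_iff.mp (Bool.and_eq_true_iff.mp (Bool.and_eq_true_iff.mp (Bool.and_eq_true_iff.mp (Bool.and_eq_true_iff.mp (Bool.and_eq_true_iff.mp (Bool.and_eq_true_iff.mp (Bool.and_eq_true_iff.mp (Bool.and_eq_true_iff.mp (Bool.and_eq_true_iff.mp e1).2).2).2).2).2).2).2).2).2).2).2).1, ((Bool.or_eq_true_iff.mp (Bool.and_eq_true_iff.mp (Bool.and_eq_true_iff.mp (Bool.and_eq_true_iff.mp (Bool.and_eq_true_iff.mp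 (Bool.and_eq_true_iff.mp (Bool.and_eq_true_iff.mp (Bool.and_eq_true_iff.mp (Bool.and_eq_true_iff.mp (Bool.and_eq_true_iff.mp (Bool.and_eq_true_iff.mp (Bool.and_eq_true_iff.mp (Bool.and_eq_true_iff.mp e1).2).2).2).2).2).2).2).2).2).2).2).2).imp (fun a => pos_sound hS (h186 h) a) (fun a => pos_sound hS (h176 h) a))⟩⟩⟩⟩⟩⟩⟩⟩⟩⟩⟩⟩

def g1 (b : Bx) : Bool := or (pos (t179 b)) (or (pos (t181 b)) (or (pos (t147 b)) (or (pos (t183 b)) (or (pos (t148 b)) (or (pos (t185 b)) (or (pos (t187 b)) (or (pos (t188 b)) (or (pos (t189 b)) (pos (t191 b))))))))))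

def l1 (b : Bx) : Nat := cond (g1 b) 0 (l0 b)

def P1 (x1 x2 : ℝ) : Prop := (0 < v179 x1 x2 ∨ 0 < v181 x1 x2 ∨ 0 < v147 x1 x2 ∨ 0 < v183 x1 x2 ∨ 0 < v148 x1 x2 ∨ 0 < v185 x1 x2 ∨ 0 < v187 x1 x2 ∨ 0 < v188 x1 x2 ∨ 0 < v189 x1 x2 ∨ 0 < v191 x1 x2) ∨ (P0 x1 x2)

theorem l1_sound (h : In b E x1 x2) (e : l1 b = 0) : P1 x1 x2 := by
  unfold l1 at e
  rcases e1 : g1 b with _ | _
  · rw [e1, cond_false] at e
    have z0 : l0 b = 0 := e
    exact Or.inr (l0_sound h z0)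
  · exact Or.inl (((Bool.or_eq_true_iff.mp e1).imp (fun a => pos_sound hS (h179 h) a) (fun a => ((Bool.or_eq_true_iff.mp a).imp (fun a => pos_sound hS (h181 h) a) (fun a => ((Bool.or_eq_true_iff.mp a).imp (fun a => pos_sound hS (h147 h) a) (fun a => ((Bool.or_eq_true_iff.mp a).imp (fun a => pos_sound hS (h183 h) a) (fun a => ((Bool.or_eq_true_iff.mp a).imp (fun a => pos_sound hS (h148 h) a) (fun a => ((Bool.or_eq_true_iff.mp a).imp (fun a => pos_sound hS (h185 h) a) (fun a => ((Bool.or_eq_true_iff.mp a).imp (fun a => pos_sound hS (h187 h) a) (fun a => ((Bool.or_eq_true_iff.mp a).imp (fun a => pos_sound hS (h188 h) a) (fun a => ((Bool.or_eq_true_iff.mp a).imp (fun a => pos_sound hS (h189 h) a) (fun a => pos_sound hS (h191 h) a)))))))))))))))))))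

def f (b : Bx) : Nat := l1 b

/-- the statement -/
def Q (x1 x2 : ℝ) : Prop := P1 x1 x2

theorem f_sound (b : Bx) (hb : f b = 0) (x1 x2 : ℝ) (hm : Mem S b x1 x2) : Q x1 x2 := by
  obtain ⟨E, h⟩ := pt_of_mem hm
  have h : In b E x1 x2 := h
  unfold f at hb
  have e := hb
  have z1 : l1 b = 0 := e
  exact (l1_sound h z1)

/-- the box -/
def b0 : Bx := ⟨232471924, 0, 232471926, 697415773, 0, 232471926⟩

theorem chk_all {n : ℕ} {b : Bx} (h : chk f n b = true) (x1 x2 : ℝ) (hm : Mem S b x1 x2) : Q x1 x2 :=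
  chk_sound (fun b hb x1 x2 hm => f_sound b hb x1 x2 hm) n b h x1 x2 hm


end Pool.Agent.Strip051.LB.ChA03V2_pm_011
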