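import Pool.Agent.Strip051.LB.ChA03V2_pm_011.Defs
import Pool.Agent.Strip051.LB.Slope
import Pool.Agent.Strip051.LB.Star
import Pool.Agent.Strip051.LB.Cf

/-! # LINE tight chart ChA03V2_pm_011: slopes -/

namespace Pool.Agent.Strip051.LB.ChA03V2_pm_011

open Pool.Agent.Strip051.LB Pool.Agent.Strip051.LB.Fn Pool.Agent.Strip051.LB.Fc Pool.Agent.StripNear

set_option maxRecDepth 100000
set_option linter.all false

noncomputable def v30 (x1 x2 : ℝ) : ℝ := -(v18 x1 x2)

noncomputable def v31 (x1 x2 : ℝ) : ℝ := -(v29 x1 x2)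

noncomputable def v43 (x1 x2 : ℝ) : ℝ := v1 x1 x2 * v42 x1 x2

noncomputable def v46 (x1 x2 : ℝ) : ℝ := v43 x1 x2 * v45 x1 x2

noncomputable def v47 (x1 x2 : ℝ) : ℝ := -(v46 x1 x2)

noncomputable def v51 (x1 x2 : ℝ) : ℝ := v50 x1 x2 - v5 x1 x2

noncomputable def v53 (x1 x2 : ℝ) : ℝ := (v19 x1 x2) ^ 2

noncomputable def v55 (x1 x2 : ℝ) : ℝ := v27 x1 x2 - v53 x1 x2

noncomputable def v56 (x1 x2 : ℝ) : ℝ := -(v54 x1 x2)

noncomputable def v60 (x1 x2 : ℝ) : ℝ := -(v59 x1 x2)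

noncomputable def v62 (x1 x2 : ℝ) : ℝ := (v61 x1 x2) ^ 2

noncomputable def v66 (x1 x2 : ℝ) : ℝ := (v65 x1 x2) ^ 2

noncomputable def v68 (x1 x2 : ℝ) : ℝ := v62 x1 x2 + v66 x1 x2

noncomputable def v70 (x1 x2 : ℝ) : ℝ := v68 x1 x2 - v5 x1 x2

noncomputable def v75 (x1 x2 : ℝ) : ℝ := ((2 : ℕ) : ℝ) * v73 x1 x2

noncomputable def v76 (x1 x2 : ℝ) : ℝ := v5 x1 x2 + v75 x1 x2

noncomputable def v79 (x1 x2 : ℝ) : ℝ := v76 x1 x2 * v78 x1 x2

noncomputable def v84 (x1 x2 : ℝ) : ℝ := v79 x1 x2 * v83 x1 x2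

noncomputable def v85 (x1 x2 : ℝ) : ℝ := v5 x1 x2 - v66 x1 x2

noncomputable def v86 (x1 x2 : ℝ) : ℝ := -(v67 x1 x2)

noncomputable def v90 (x1 x2 : ℝ) : ℝ := -(v89 x1 x2)

noncomputable def v93 (x1 x2 : ℝ) : ℝ := -(v92 x1 x2)

noncomputable def v110 (x1 x2 : ℝ) : ℝ := -(v109 x1 x2)

noncomputable def v111 (x1 x2 : ℝ) : ℝ := v98 x1 x2 * v107 x1 x2

noncomputable def v120 (x1 x2 : ℝ) : ℝ := v71 x1 x2 - v73 x1 x2

noncomputable def v121 (x1 x2 : ℝ) : ℝ := v120 x1 x2 * v116 x1 x2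

noncomputable def v122 (x1 x2 : ℝ) : ℝ := v84 x1 x2 + v121 x1 x2

noncomputable def v123 (x1 x2 : ℝ) : ℝ := -(v122 x1 x2)

noncomputable def v124 (x1 x2 : ℝ) : ℝ := -(v111 x1 x2)

noncomputable def v137 (x1 x2 : ℝ) : ℝ := v7 x1 x2 * v19 x1 x2

noncomputable def v138 (x1 x2 : ℝ) : ℝ := v18 x1 x2 * v0 x1 x2

noncomputable def v139 (x1 x2 : ℝ) : ℝ := -(v138 x1 x2)

noncomputable def v141 (x1 x2 : ℝ) : ℝ := -(v140 x1 x2)

noncomputable def v142 (x1 x2 : ℝ) : ℝ := v137 x1 x2 - v138 x1 x2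

noncomputable def v144 (x1 x2 : ℝ) : ℝ := v142 x1 x2 * v134 x1 x2

noncomputable def v146 (x1 x2 : ℝ) : ℝ := v144 x1 x2 - v9 x1 x2

noncomputable def v157 (x1 x2 : ℝ) : ℝ := -(v156 x1 x2)

noncomputable def v158 (x1 x2 : ℝ) : ℝ := v150 x1 x2 * v155 x1 x2

noncomputable def v162 (x1 x2 : ℝ) : ℝ := v159 x1 x2 - v160 x1 x2

noncomputable def v163 (x1 x2 : ℝ) : ℝ := -(v158 x1 x2)

noncomputable def v166 (x1 x2 : ℝ) : ℝ := v19 x1 x2 - v3 x1 x2

noncomputable def v192 (x1 x2 : ℝ) : ℝ := v65 x1 x2 - v3 x1 x2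

structure Cx (x1 x2 : ℝ) : Prop where
  hc : v7 x1 x2 ^ 2 + x1 ^ 2 = 1
  p28 : 0 < v28 x1 x2
  p57 : 0 < v57 x1 x2
  p72 : 0 < v72 x1 x2
  p87 : 0 < v87 x1 x2
  p82 : 0 < v82 x1 x2
  p105 : 0 < v105 x1 x2
  p117 : 0 < v117 x1 x2
  p119 : 0 < v119 x1 x2
  p44 : 0 < v44 x1 x2
  p154 : 0 < v154 x1 x2
  p38 : 0 < v38 x1 x2

variable {x1 x2 : ℝ}

theorem s3q (x1 x2 : ℝ) : v2 x1 x2 ^ 2 = 3 := by
  rw [v2]; exact s3sq

theorem s3ne (x1 x2 : ℝ) : v2 x1 x2 ≠ 0 := by
  rw [v2]; positivity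

theorem s1 (c : Cx x1 x2) : v1 x1 x2 = v19 x1 x2 + v25 x1 x2 * v5 x1 x2 := by
  simp only [v1, v5, v25]
  (try push_cast)
  first | ring | grind

theorem s26 (c : Cx x1 x2) : v26 x1 x2 = v53 x1 x2 + v25 x1 x2 * v54 x1 x2 := by
  have a0 : (v1 x1 x2 + v19 x1 x2) * v1 x1 x2 = (v1 x1 x2 + v19 x1 x2) * (v19 x1 x2 + v25 x1 x2 * v5 x1 x2) := congrArg (fun z => (v1 x1 x2 + v19 x1 x2) * z) (s1 c)
  try simp only [v1, v5, v25, v26, v53, v54] at a0
  simp only [v1, v5, v25, v26, v53, v54]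
  (try push_cast at a0 ⊢)
  first | linear_combination a0 | ring | grind

theorem s28 (c : Cx x1 x2) : v28 x1 x2 = v55 x1 x2 + v25 x1 x2 * v56 x1 x2 := by
  have a1 := s26 c
  try simp only [v1, v25, v27, v28, v54, v55, v56] at a1
  simp only [v1, v25, v27, v28, v54, v55, v56]
  (try push_cast at a1 ⊢)
  first | linear_combination -a1 | ring | grind

theorem q29 (c : Cx x1 x2) : v55 x1 x2 = v30 x1 x2 ^ 2 := by
  have hc := c.hc
  have h3 := s3q x1 x2
  simp only [v0, v3, v10, v11, v12, v13, v14, v16, v17, v18, v19, v27, v30, v53, v55] at hc ⊢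
  push_cast at hc ⊢
  grind

theorem s29 (c : Cx x1 x2) : v29 x1 x2 = v30 x1 x2 + v25 x1 x2 * v60 x1 x2 := by
  have a0 := s28 c
  have e : 0 < Real.sqrt (v28 x1 x2) + v30 x1 x2 := by
    have e := c.p57
    simp only [v27, v28, v29, v30, v57] at e ⊢
    push_cast at e ⊢
    linarith
  have b := sl_sqrt a0 (q29 c) (le_of_lt c.p28) e
  clear a0
  try simp only [v1, v25, v27, v28, v29, v30, v54, v55, v56, v57, v58, v59, v60] at b
  simp only [v1, v25, v27, v28, v29, v30, v54, v55, v56, v57, v58, v59, v60]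
  (try push_cast at b ⊢)
  first | linear_combination b | ring | grind

theorem s32 (c : Cx x1 x2) : v32 x1 x2 = v61 x1 x2 + v25 x1 x2 * v59 x1 x2 := by
  have a1 := s29 c
  try simp only [v1, v25, v30, v32, v60, v61] at a1
  simp only [v1, v25, v30, v32, v60, v61]
  (try push_cast at a1 ⊢)
  first | linear_combination -a1 | ring | grind

theorem s33 (c : Cx x1 x2) : v33 x1 x2 = v65 x1 x2 + v25 x1 x2 * v5 x1 x2 := by
  have a1 := s1 c
  try simp only [v0, v1, v5, v25, v33, v65] at a1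
  simp only [v0, v1, v5, v25, v33, v65]
  (try push_cast at a1 ⊢)
  first | linear_combination a1 | ring | grind

theorem s42 (c : Cx x1 x2) : v42 x1 x2 = v149 x1 x2 + v25 x1 x2 * v60 x1 x2 := by
  have a0 := s29 c
  try simp only [v1, v25, v30, v41, v42, v60, v149] at a0
  simp only [v1, v25, v30, v41, v42, v60, v149]
  (try push_cast at a0 ⊢)
  first | linear_combination a0 | ring | grind

theorem s43 (c : Cx x1 x2) : v43 x1 x2 = v150 x1 x2 + v25 x1 x2 * v153 x1 x2 := by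
  have a0 : (v42 x1 x2) * v1 x1 x2 = (v42 x1 x2) * (v19 x1 x2 + v25 x1 x2 * v5 x1 x2) := congrArg (fun z => (v42 x1 x2) * z) (s1 c)
  have a1 : (v19 x1 x2) * v42 x1 x2 = (v19 x1 x2) * (v149 x1 x2 + v25 x1 x2 * v60 x1 x2) := congrArg (fun z => (v19 x1 x2) * z) (s42 c)
  try simp only [v1, v5, v25, v41, v42, v43, v60, v149, v150, v151, v153] at a0
  try simp only [v1, v5, v25, v41, v42, v43, v60, v149, v150, v151, v153] at a1
  simp only [v1, v5, v25, v41, v42, v43, v60, v149, v150, v151, v153]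
  (try push_cast at a0 a1 ⊢)
  first | linear_combination a0 + a1 | ring | grind

theorem s44 (c : Cx x1 x2) : v44 x1 x2 = v154 x1 x2 + v25 x1 x2 * v5 x1 x2 := by
  have a1 := s1 c
  try simp only [v1, v2, v3, v5, v25, v44, v154] at a1
  simp only [v1, v2, v3, v5, v25, v44, v154]
  (try push_cast at a1 ⊢)
  first | linear_combination a1 | ring | grind

theorem s45 (c : Cx x1 x2) : v45 x1 x2 = v155 x1 x2 + v25 x1 x2 * v157 x1 x2 := by
  have a0 := s44 c
  have b := sl_inv a0 (c.p44).ne' (c.p154).ne'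
  clear a0
  try simp only [v1, v2, v3, v5, v25, v44, v45, v154, v155, v156, v157] at b
  simp only [v1, v2, v3, v5, v25, v44, v45, v154, v155, v156, v157]
  (try push_cast at b ⊢)
  first | linear_combination b | ring | grind

theorem s46 (c : Cx x1 x2) : v46 x1 x2 = v158 x1 x2 + v25 x1 x2 * v162 x1 x2 := by
  have a0 : (v45 x1 x2) * v43 x1 x2 = (v45 x1 x2) * (v150 x1 x2 + v25 x1 x2 * v153 x1 x2) := congrArg (fun z => (v45 x1 x2) * z) (s43 c)
  have a1 : (v150 x1 x2) * v45 x1 x2 = (v150 x1 x2) * (v155 x1 x2 + v25 x1 x2 * v157 x1 x2) := congrArg (fun z => (v150 x1 x2) * z) (s45 c)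
  try simp only [v1, v25, v41, v42, v46, v153, v157, v158, v159, v160, v162] at a0
  try simp only [v1, v25, v41, v42, v46, v153, v157, v158, v159, v160, v162] at a1
  simp only [v1, v25, v41, v42, v46, v153, v157, v158, v159, v160, v162]
  (try push_cast at a0 a1 ⊢)
  first | linear_combination a0 + a1 | ring | grind

theorem s47 (c : Cx x1 x2) : v47 x1 x2 = v163 x1 x2 + v25 x1 x2 * v164 x1 x2 := by
  have a0 := s46 c
  try simp only [v1, v25, v47, v162, v163, v164] at a0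
  simp only [v1, v25, v47, v162, v163, v164]
  (try push_cast at a0 ⊢)
  first | linear_combination -a0 | ring | grind

theorem s48 (c : Cx x1 x2) : v48 x1 x2 = v62 x1 x2 + v25 x1 x2 * v64 x1 x2 := by
  have a0 : (v32 x1 x2 + v61 x1 x2) * v32 x1 x2 = (v32 x1 x2 + v61 x1 x2) * (v61 x1 x2 + v25 x1 x2 * v59 x1 x2) := congrArg (fun z => (v32 x1 x2 + v61 x1 x2) * z) (s32 c)
  try simp only [v1, v25, v32, v48, v61, v62, v63, v64] at a0
  simp only [v1, v25, v32, v48, v61, v62, v63, v64]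
  (try push_cast at a0 ⊢)
  first | linear_combination a0 | ring | grind

theorem s49 (c : Cx x1 x2) : v49 x1 x2 = v66 x1 x2 + v25 x1 x2 * v67 x1 x2 := by
  have a0 : (v33 x1 x2 + v65 x1 x2) * v33 x1 x2 = (v33 x1 x2 + v65 x1 x2) * (v65 x1 x2 + v25 x1 x2 * v5 x1 x2) := congrArg (fun z => (v33 x1 x2 + v65 x1 x2) * z) (s33 c)
  try simp only [v0, v1, v5, v25, v33, v49, v65, v66, v67] at a0
  simp only [v0, v1, v5, v25, v33, v49, v65, v66, v67]
  (try push_cast at a0 ⊢)
  first | linear_combination a0 | ring | grind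

theorem s50 (c : Cx x1 x2) : v50 x1 x2 = v68 x1 x2 + v25 x1 x2 * v69 x1 x2 := by
  have a0 := s48 c
  have a1 := s49 c
  try simp only [v0, v1, v25, v33, v50, v65, v67, v68, v69] at a0
  try simp only [v0, v1, v25, v33, v50, v65, v67, v68, v69] at a1
  simp only [v0, v1, v25, v33, v50, v65, v67, v68, v69]
  (try push_cast at a0 a1 ⊢)
  first | linear_combination a0 + a1 | ring | grind

theorem s51 (c : Cx x1 x2) : v51 x1 x2 = v70 x1 x2 + v25 x1 x2 * v69 x1 x2 := by
  have a0 := s50 c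
  try simp only [v0, v1, v5, v25, v33, v50, v51, v65, v67, v68, v69, v70] at a0
  simp only [v0, v1, v5, v25, v33, v50, v51, v65, v67, v68, v69, v70]
  (try push_cast at a0 ⊢)
  first | linear_combination a0 | ring | grind

theorem s72 (c : Cx x1 x2) : v72 x1 x2 = v85 x1 x2 + v25 x1 x2 * v86 x1 x2 := by
  have a1 := s49 c
  try simp only [v0, v1, v5, v25, v33, v65, v67, v72, v85, v86] at a1
  simp only [v0, v1, v5, v25, v33, v65, v67, v72, v85, v86]
  (try push_cast at a1 ⊢)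
  first | linear_combination -a1 | ring | grind

theorem q73 (c : Cx x1 x2) : v85 x1 x2 = v74 x1 x2 ^ 2 := by
  have hc := c.hc
  have h3 := s3q x1 x2
  simp only [v0, v3, v5, v14, v16, v17, v19, v65, v66, v74, v85] at hc ⊢
  push_cast at hc ⊢
  grind

theorem s73 (c : Cx x1 x2) : v73 x1 x2 = v74 x1 x2 + v25 x1 x2 * v90 x1 x2 := by
  have a0 := s72 c
  have e : 0 < Real.sqrt (v72 x1 x2) + v74 x1 x2 := by
    have e := c.p87
    simp only [v5, v16, v72, v73, v74, v87] at e ⊢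
    push_cast at e ⊢
    linarith
  have b := sl_sqrt a0 (q73 c) (le_of_lt c.p72) e
  clear a0
  try simp only [v0, v1, v5, v16, v25, v33, v65, v67, v72, v73, v74, v85, v86, v87, v88, v89, v90] at b
  simp only [v0, v1, v5, v16, v25, v33, v65, v67, v72, v73, v74, v85, v86, v87, v88, v89, v90]
  (try push_cast at b ⊢)
  first | linear_combination b | ring | grind

theorem s75 (c : Cx x1 x2) : v75 x1 x2 = v91 x1 x2 + v25 x1 x2 * v93 x1 x2 := by
  have a0 := s73 c
  try simp only [v1, v16, v25, v74, v75, v90, v91, v92, v93] at a0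
  simp only [v1, v16, v25, v74, v75, v90, v91, v92, v93]
  (try push_cast at a0 ⊢)
  first | linear_combination (2 : ℝ) * a0 | ring | grind

theorem s76 (c : Cx x1 x2) : v76 x1 x2 = v94 x1 x2 + v25 x1 x2 * v93 x1 x2 := by
  have a1 := s75 c
  try simp only [v1, v5, v16, v25, v74, v75, v76, v91, v92, v93, v94] at a1
  simp only [v1, v5, v16, v25, v74, v75, v76, v91, v92, v93, v94]
  (try push_cast at a1 ⊢)
  first | linear_combination a1 | ring | grind

theorem s77 (c : Cx x1 x2) : v77 x1 x2 = v95 x1 x2 + v25 x1 x2 * v2 x1 x2 := by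
  have a1 : (v2 x1 x2) * v33 x1 x2 = (v2 x1 x2) * (v65 x1 x2 + v25 x1 x2 * v5 x1 x2) := congrArg (fun z => (v2 x1 x2) * z) (s33 c)
  try simp only [v0, v1, v2, v5, v25, v33, v65, v77, v95] at a1
  simp only [v0, v1, v2, v5, v25, v33, v65, v77, v95]
  (try push_cast at a1 ⊢)
  first | linear_combination a1 | ring | grind

theorem s78 (c : Cx x1 x2) : v78 x1 x2 = v96 x1 x2 + v25 x1 x2 * v97 x1 x2 := by
  have a0 := s77 c
  have a1 := s73 c
  try simp only [v1, v2, v16, v25, v74, v78, v90, v96, v97] at a0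
  try simp only [v1, v2, v16, v25, v74, v78, v90, v96, v97] at a1
  simp only [v1, v2, v16, v25, v74, v78, v90, v96, v97]
  (try push_cast at a0 a1 ⊢)
  first | linear_combination a0 - a1 | ring | grind

theorem s79 (c : Cx x1 x2) : v79 x1 x2 = v98 x1 x2 + v25 x1 x2 * v102 x1 x2 := by
  have a0 : (v78 x1 x2) * v76 x1 x2 = (v78 x1 x2) * (v94 x1 x2 + v25 x1 x2 * v93 x1 x2) := congrArg (fun z => (v78 x1 x2) * z) (s76 c)
  have a1 : (v94 x1 x2) * v78 x1 x2 = (v94 x1 x2) * (v96 x1 x2 + v25 x1 x2 * v97 x1 x2) := congrArg (fun z => (v94 x1 x2) * z) (s78 c)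
  try simp only [v1, v2, v5, v16, v25, v74, v75, v76, v78, v79, v91, v92, v93, v94, v96, v97, v98, v99, v101, v102] at a0
  try simp only [v1, v2, v5, v16, v25, v74, v75, v76, v78, v79, v91, v92, v93, v94, v96, v97, v98, v99, v101, v102] at a1
  simp only [v1, v2, v5, v16, v25, v74, v75, v76, v78, v79, v91, v92, v93, v94, v96, v97, v98, v99, v101, v102]
  (try push_cast at a0 a1 ⊢)
  first | linear_combination a0 + a1 | ring | grind

theorem s80 (c : Cx x1 x2) : v80 x1 x2 = v103 x1 x2 + v25 x1 x2 * v2 x1 x2 := by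
  have a1 := s77 c
  try simp only [v1, v2, v5, v25, v80, v103] at a1
  simp only [v1, v2, v5, v25, v80, v103]
  (try push_cast at a1 ⊢)
  first | linear_combination a1 | ring | grind

theorem s81 (c : Cx x1 x2) : v81 x1 x2 = v104 x1 x2 + v25 x1 x2 * v97 x1 x2 := by
  have a0 := s80 c
  have a1 := s73 c
  try simp only [v1, v2, v5, v16, v25, v74, v80, v81, v90, v97, v103, v104] at a0
  try simp only [v1, v2, v5, v16, v25, v74, v80, v81, v90, v97, v103, v104] at a1
  simp only [v1, v2, v5, v16, v25, v74, v80, v81, v90, v97, v103, v104]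
  (try push_cast at a0 a1 ⊢)
  first | linear_combination a0 - a1 | ring | grind

theorem s82 (c : Cx x1 x2) : v82 x1 x2 = v105 x1 x2 + v25 x1 x2 * v106 x1 x2 := by
  have a0 := s81 c
  try simp only [v1, v2, v5, v16, v25, v74, v80, v81, v82, v97, v103, v104, v105, v106] at a0
  simp only [v1, v2, v5, v16, v25, v74, v80, v81, v82, v97, v103, v104, v105, v106]
  (try push_cast at a0 ⊢)
  first | linear_combination (2 : ℝ) * a0 | ring | grind

theorem s83 (c : Cx x1 x2) : v83 x1 x2 = v107 x1 x2 + v25 x1 x2 * v110 x1 x2 := by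
  have a0 := s82 c
  have b := sl_inv a0 (c.p82).ne' (c.p105).ne'
  clear a0
  try simp only [v1, v2, v5, v16, v25, v74, v80, v81, v82, v83, v97, v103, v104, v105, v106, v107, v108, v109, v110] at b
  simp only [v1, v2, v5, v16, v25, v74, v80, v81, v82, v83, v97, v103, v104, v105, v106, v107, v108, v109, v110]
  (try push_cast at b ⊢)
  first | linear_combination b | ring | grind

theorem s84 (c : Cx x1 x2) : v84 x1 x2 = v111 x1 x2 + v25 x1 x2 * v115 x1 x2 := by
  have a0 : (v83 x1 x2) * v79 x1 x2 = (v83 x1 x2) * (v98 x1 x2 + v25 x1 x2 * v102 x1 x2) := congrArg (fun z => (v83 x1 x2) * z) (s79 c)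
  have a1 : (v98 x1 x2) * v83 x1 x2 = (v98 x1 x2) * (v107 x1 x2 + v25 x1 x2 * v110 x1 x2) := congrArg (fun z => (v98 x1 x2) * z) (s83 c)
  try simp only [v1, v25, v84, v102, v110, v111, v112, v113, v115] at a0
  try simp only [v1, v25, v84, v102, v110, v111, v112, v113, v115] at a1
  simp only [v1, v25, v84, v102, v110, v111, v112, v113, v115]
  (try push_cast at a0 a1 ⊢)
  first | linear_combination a0 + a1 | ring | grind

theorem s130 (c : Cx x1 x2) : v130 x1 x2 = v137 x1 x2 + v25 x1 x2 * v7 x1 x2 := by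
  have a1 : (v7 x1 x2) * v1 x1 x2 = (v7 x1 x2) * (v19 x1 x2 + v25 x1 x2 * v5 x1 x2) := congrArg (fun z => (v7 x1 x2) * z) (s1 c)
  try simp only [v1, v5, v25, v130, v137] at a1
  simp only [v1, v5, v25, v130, v137]
  (try push_cast at a1 ⊢)
  first | linear_combination a1 | ring | grind

theorem s131 (c : Cx x1 x2) : v131 x1 x2 = v139 x1 x2 + v25 x1 x2 * v141 x1 x2 := by
  have a0 : (v0 x1 x2) * v29 x1 x2 = (v0 x1 x2) * (v30 x1 x2 + v25 x1 x2 * v60 x1 x2) := congrArg (fun z => (v0 x1 x2) * z) (s29 c)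
  try simp only [v0, v1, v25, v30, v60, v131, v138, v139, v140, v141] at a0
  simp only [v0, v1, v25, v30, v60, v131, v138, v139, v140, v141]
  (try push_cast at a0 ⊢)
  first | linear_combination a0 | ring | grind

theorem s133 (c : Cx x1 x2) : v133 x1 x2 = v142 x1 x2 + v25 x1 x2 * v143 x1 x2 := by
  have a0 := s130 c
  have a1 := s131 c
  try simp only [v1, v25, v133, v139, v141, v142, v143] at a0
  try simp only [v1, v25, v133, v139, v141, v142, v143] at a1
  simp only [v1, v25, v133, v139, v141, v142, v143]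
  (try push_cast at a0 a1 ⊢)
  first | linear_combination a0 + a1 | ring | grind

theorem s135 (c : Cx x1 x2) : v135 x1 x2 = v144 x1 x2 + v25 x1 x2 * v145 x1 x2 := by
  have a0 : (v134 x1 x2) * v133 x1 x2 = (v134 x1 x2) * (v142 x1 x2 + v25 x1 x2 * v143 x1 x2) := congrArg (fun z => (v134 x1 x2) * z) (s133 c)
  try simp only [v1, v25, v133, v135, v142, v143, v144, v145] at a0
  simp only [v1, v25, v133, v135, v142, v143, v144, v145]
  (try push_cast at a0 ⊢)
  first | linear_combination a0 | ring | grind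

theorem s136 (c : Cx x1 x2) : v136 x1 x2 = v146 x1 x2 + v25 x1 x2 * v145 x1 x2 := by
  have a0 := s135 c
  try simp only [v1, v9, v25, v136, v146] at a0
  simp only [v1, v9, v25, v136, v146]
  (try push_cast at a0 ⊢)
  first | linear_combination a0 | ring | grind

theorem s147 (c : Cx x1 x2) : v147 x1 x2 = v166 x1 x2 + v25 x1 x2 * v5 x1 x2 := by
  have a0 := s1 c
  try simp only [v1, v2, v3, v5, v25, v147, v166] at a0
  simp only [v1, v2, v3, v5, v25, v147, v166]
  (try push_cast at a0 ⊢)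
  first | linear_combination a0 | ring | grind

theorem s148 (c : Cx x1 x2) : v148 x1 x2 = v192 x1 x2 + v25 x1 x2 * v5 x1 x2 := by
  have a0 := s33 c
  try simp only [v0, v1, v2, v3, v5, v25, v33, v65, v148, v192] at a0
  simp only [v0, v1, v2, v3, v5, v25, v33, v65, v148, v192]
  (try push_cast at a0 ⊢)
  first | linear_combination a0 | ring | grind

theorem bD (c : Cx x1 x2) : v70 x1 x2 = 0 := by
  have hc := c.hc
  have h3 := s3q x1 x2
  simp only [v0, v3, v5, v10, v11, v12, v13, v14, v16, v17, v18, v19, v61, v62, v65, v66, v68, v70] at hc ⊢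
  push_cast at hc ⊢
  grind

theorem sD (c : Cx x1 x2) : v51 x1 x2 = v25 x1 x2 * v69 x1 x2 := by
  have h := s51 c
  rw [bD c, zero_add] at h
  exact h

theorem s123 (c : Cx x1 x2) : v123 x1 x2 = v124 x1 x2 + v25 x1 x2 * v129 x1 x2 := by
  have hA := s84 c
  have hd := sD c
  have hs := c.p117
  have hc : v73 x1 x2 ^ 2 = v72 x1 x2 := by
    rw [v73]; exact Real.sq_sqrt (le_of_lt c.p72)
  have hx : v71 x1 x2 - v73 x1 x2 = v51 x1 x2 * (v117 x1 x2)⁻¹ := by
    have g : v71 x1 x2 ^ 2 - v73 x1 x2 ^ 2 = v51 x1 x2 := by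
      rw [hc]; simp only [v0, v1, v5, v32, v33, v48, v49, v50, v51, v71, v72, v117]; push_cast; ring
    have g3 : v117 x1 x2 = v71 x1 x2 + v73 x1 x2 := by
      simp only [v0, v1, v5, v32, v33, v48, v49, v50, v51, v71, v72, v117]; try push_cast
      try ring
    have g2 : 0 < v71 x1 x2 + v73 x1 x2 := by rw [← g3]; exact hs
    rw [g3]; exact diff_of_sq g g2
  have hy : v116 x1 x2 * (v71 x1 x2 - v73 x1 x2) = v116 x1 x2 * (v51 x1 x2 * (v117 x1 x2)⁻¹) := congrArg (fun z => v116 x1 x2 * z) hx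
  have hK : v116 x1 x2 * (v117 x1 x2)⁻¹ * v51 x1 x2 = v116 x1 x2 * (v117 x1 x2)⁻¹ * (v25 x1 x2 * v69 x1 x2) := congrArg (fun z => v116 x1 x2 * (v117 x1 x2)⁻¹ * z) hd
  try simp only [v0, v1, v5, v25, v33, v50, v51, v65, v67, v69, v71, v115, v117, v120, v121, v122, v123, v124, v125, v126, v127, v128, v129] at hA
  try simp only [v0, v1, v5, v25, v33, v50, v51, v65, v67, v69, v71, v115, v117, v120, v121, v122, v123, v124, v125, v126, v127, v128, v129] at hy
  try simp only [v0, v1, v5, v25, v33, v50, v51, v65, v67, v69, v71, v115, v117, v120, v121, v122, v123, v124, v125, v126, v127, v128, v129] at hK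
  simp only [v0, v1, v5, v25, v33, v50, v51, v65, v67, v69, v71, v115, v117, v120, v121, v122, v123, v124, v125, v126, v127, v128, v129]
  (try push_cast at hA hy hK ⊢)
  first | linear_combination -(hA + hy + hK) | grind

theorem bE (c : Cx x1 x2) : v146 x1 x2 = 0 := by
  have hc := c.hc
  have h3 := s3q x1 x2
  have g0 : v2 x1 x2 ≠ 0 := s3ne x1 x2
  simp only [v0, v3, v9, v10, v11, v12, v13, v14, v16, v17, v18, v19, v134, v137, v138, v142, v144, v146] at hc ⊢
  push_cast at hc ⊢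
  grind

theorem hE (c : Cx x1 x2) : v136 x1 x2 = v25 x1 x2 * v145 x1 x2 := by
  have h := s136 c
  rw [bE c, zero_add] at h
  exact h

theorem bS (c : Cx x1 x2) : v124 x1 x2 - v40 x1 x2 - v163 x1 x2 = 0 := by
  have hc := c.hc
  have h3 := s3q x1 x2
  have g0 := (c.p38).ne'
  have g1 := (c.p105).ne'
  have g2 := (c.p154).ne'
  simp only [v0, v3, v5, v10, v11, v12, v13, v14, v16, v17, v18, v19, v34, v35, v36, v37, v38, v39, v40, v41, v65, v74, v91, v94, v95, v96, v98, v103, v104, v105, v107, v111, v124, v149, v150, v154, v155, v158, v163] at hc g0 g1 g2 ⊢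
  push_cast at hc g0 g1 g2 ⊢
  grind

theorem hS (c : Cx x1 x2) : v123 x1 x2 - v40 x1 x2 - v47 x1 x2 = v25 x1 x2 * v165 x1 x2 := by
  have a3 := s123 c
  have a2 := s47 c
  have b := bS c
  try simp only [v1, v25, v47, v115, v122, v123, v124, v128, v129, v163, v164, v165] at a3
  try simp only [v1, v25, v47, v115, v122, v123, v124, v128, v129, v163, v164, v165] at a2
  try simp only [v1, v25, v47, v115, v122, v123, v124, v128, v129, v163, v164, v165] at b
  try simp only [v1, v25, v47, v115, v122, v123, v124, v128, v129, v163, v164, v165]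
  (try push_cast at a3 a2 b ⊢)
  first | linear_combination a3 - a2 + b | grind

theorem bC (c : Cx x1 x2) : v0 x1 x2 * v163 x1 x2 - v166 x1 x2 * v40 x1 x2 = 0 := by
  have hc := c.hc
  have h3 := s3q x1 x2
  have g0 := (c.p38).ne'
  have g1 := (c.p154).ne'
  simp only [v0, v3, v5, v10, v11, v12, v13, v14, v16, v17, v18, v19, v34, v35, v36, v37, v38, v39, v40, v41, v149, v150, v154, v155, v158, v163, v166] at hc g0 g1 ⊢
  push_cast at hc g0 g1 ⊢
  grind

theorem hC (c : Cx x1 x2) : v0 x1 x2 * v47 x1 x2 - v147 x1 x2 * v40 x1 x2 = v25 x1 x2 * v168 x1 x2 := by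
  have a2 : v0 x1 x2 * v47 x1 x2 = v0 x1 x2 * (v163 x1 x2 + v25 x1 x2 * v164 x1 x2) := congrArg (fun z => v0 x1 x2 * z) (s47 c)
  have a3 : v40 x1 x2 * v147 x1 x2 = v40 x1 x2 * (v166 x1 x2 + v25 x1 x2 * v5 x1 x2) := congrArg (fun z => v40 x1 x2 * z) (s147 c)
  have b := bC c
  try simp only [v0, v1, v2, v3, v5, v25, v47, v147, v163, v164, v166, v167, v168] at a2
  try simp only [v0, v1, v2, v3, v5, v25, v47, v147, v163, v164, v166, v167, v168] at a3
  try simp only [v0, v1, v2, v3, v5, v25, v47, v147, v163, v164, v166, v167, v168] at b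
  simp only [v0, v1, v2, v3, v5, v25, v47, v147, v163, v164, v166, v167, v168]
  (try push_cast at a2 a3 b ⊢)
  first | linear_combination a2 - a3 + b | grind

theorem hT (x1 x2 : ℝ) : v148 x1 x2 = v0 x1 x2 + v147 x1 x2 := by
  simp only [v0, v1, v2, v3, v33, v147, v148]
  push_cast
  ring

theorem hG (c : Cx x1 x2) : v0 x1 x2 * v123 x1 x2 - (-v148 x1 x2) * (-v40 x1 x2) = v25 x1 x2 * v172 x1 x2 := by
  have b := hC c
  have m0 : v0 x1 x2 * (v123 x1 x2 - v40 x1 x2 - v47 x1 x2) = v0 x1 x2 * (v25 x1 x2 * v165 x1 x2) := congrArg (fun z => v0 x1 x2 * z) (hS c)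
  have m1 : v40 x1 x2 * v148 x1 x2 = v40 x1 x2 * (v0 x1 x2 + v147 x1 x2) := congrArg (fun z => v40 x1 x2 * z) (hT x1 x2)
  try simp only [v0, v1, v2, v3, v25, v33, v47, v115, v122, v123, v128, v129, v147, v148, v164, v165, v168, v171, v172] at b
  try simp only [v0, v1, v2, v3, v25, v33, v47, v115, v122, v123, v128, v129, v147, v148, v164, v165, v168, v171, v172] at m0
  try simp only [v0, v1, v2, v3, v25, v33, v47, v115, v122, v123, v128, v129, v147, v148, v164, v165, v168, v171, v172] at m1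
  try simp only [v0, v1, v2, v3, v25, v33, v47, v115, v122, v123, v128, v129, v147, v148, v164, v165, v168, v171, v172]
  (try push_cast at b m0 m1 ⊢)
  first | linear_combination b + m0 - m1 | grind

theorem core (c : Cx x1 x2) (hW : 0 ≤ v25 x1 x2) (hWQ : 0 ≤ v25 x1 x2 * v176 x1 x2) (h1 : 0 ≤ (-v148 x1 x2)) (h2 : 0 ≤ v0 x1 x2) (h3 : (-v148 x1 x2) + v0 x1 x2 ≤ Pool.Agent.StripNear.h0) :
    0 ≤ starn_v (v136 x1 x2) ((-v148 x1 x2)) (v0 x1 x2) (v123 x1 x2) ((-v40 x1 x2)) (v47 x1 x2) := by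
  have hD : v123 x1 x2 + (-v40 x1 x2) - v47 x1 x2 = v25 x1 x2 * v165 x1 x2 := by
    have b := hS c
    linear_combination b
  have k := starn_ge hW h1 h2 h3 (hE c) hD (hG c)
  have f0 : (-v148 x1 x2) = v175 x1 x2 := by
    simp only [v0, v1, v2, v3, v33, v148, v175]
    try (push_cast; ring)
  refine le_trans hWQ (le_trans (le_of_eq ?_) k)
  rw [v176]
  rw [f0]

end Pool.Agent.Strip051.LB.ChA03V2_pm_011
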